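import Pool.Agent.Helper84K9.IS.Fin

/-!
# Typical places: correlations along arbitrary finite sets of places, on average (helper38)

`l` is a sequence of signs whose translates are asymptotically orthogonal along a sequence of scales.
The correlations over typical tuples of places from arbitrary finite sets are square summable.
-/

set_option autoImplicit false

open scoped Classical

namespace Pool.Agent.Helper38K9.TP

open Finset Filter Topology
open Pool.Agent.Helper84K9.IS (bessel W)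

/-- the product of the signs at the places `n + b`, `b ∈ m` (with multiplicity) -/
noncomputable def Y (l : ℕ → ℝ) (m : Multiset ℕ) (n : ℕ) : ℝ := (m.map fun b => l (n + b)).prod

/-- the normalised weighted correlation -/
noncomputable def C (w l : ℕ → ℝ) (N : ℕ) (m : Multiset ℕ) : ℝ :=
  (∑ n ∈ range N, w n * Y l m n) / W w N

variable {w l : ℕ → ℝ}

lemma Y_sq (hl : ∀ n, l n ^ 2 = 1) (m : Multiset ℕ) (n : ℕ) : Y l m n ^ 2 = 1 := by
  unfold Y
  induction m using Multiset.induction with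
  | empty => simp
  | cons b m ih => rw [Multiset.map_cons, Multiset.prod_cons, mul_pow, hl, ih, one_mul]

lemma Y_abs (hl : ∀ n, l n ^ 2 = 1) (m : Multiset ℕ) (n : ℕ) : |Y l m n| = 1 := by
  have h := Y_sq hl m n
  rw [← sq_abs] at h
  have h2 := abs_nonneg (Y l m n)
  nlinarith

lemma Y_cons (b : ℕ) (m : Multiset ℕ) (n : ℕ) : Y l (b ::ₘ m) n = l (n + b) * Y l m n := by
  unfold Y
  rw [Multiset.map_cons, Multiset.prod_cons]

lemma w_nonneg (hw : ∀ n, w n ^ 2 = w n) (n : ℕ) : 0 ≤ w n := by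
  rw [← hw n]
  exact sq_nonneg _

lemma C_mem (hl : ∀ n, l n ^ 2 = 1) (hw : ∀ n, w n ^ 2 = w n) (N : ℕ) (m : Multiset ℕ) :
    C w l N m ∈ Set.Icc (-1 : ℝ) 1 := by
  rw [Set.mem_Icc, ← abs_le]
  unfold C
  have h1 : |∑ n ∈ range N, w n * Y l m n| ≤ W w N := by
    refine (abs_sum_le_sum_abs _ _).trans ?_
    unfold W
    refine sum_le_sum fun n _ => ?_
    rw [abs_mul, Y_abs hl, mul_one, abs_of_nonneg (w_nonneg hw n)]
  have h0 : 0 ≤ W w N := by
    unfold W
    exact sum_nonneg fun n _ => w_nonneg hw n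
  rw [abs_div, abs_of_nonneg h0]
  exact div_le_one_of_le₀ h1 h0

/-- a subsequence along which all the correlations converge -/
theorem exists_lim (hl : ∀ n, l n ^ 2 = 1) (hw : ∀ n, w n ^ 2 = w n) (M : ℕ → ℕ) :
    ∃ φ : ℕ → ℕ, StrictMono φ ∧ ∃ c : Multiset ℕ → ℝ,
      ∀ m, Tendsto (fun j => C w l (M (φ j)) m) atTop (𝓝 (c m)) := by
  have hK : IsCompact (Set.univ.pi fun _ : Multiset ℕ => Set.Icc (-1 : ℝ) 1) :=
    isCompact_univ_pi fun _ => isCompact_Icc
  obtain ⟨c, _, φ, hφ, hc⟩ := hK.tendsto_subseq (x := fun j m => C w l (M j) m)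
    (fun j => by
      rw [Set.mem_univ_pi]
      exact fun m => C_mem hl hw _ m)
  refine ⟨φ, hφ, c, fun m => ?_⟩
  rw [tendsto_pi_nhds] at hc
  exact hc m

/-- Bessel's inequality for the limits of the correlations -/
theorem bessel_lim (hl : ∀ n, l n ^ 2 = 1) (hw : ∀ n, w n ^ 2 = w n) {s : ℝ} (hs : 0 < s)
    (N : ℕ → ℕ) (hN : ∀ j, 1 ≤ N j) (hW : ∀ j, s * N j ≤ W w (N j))
    (h2 : ∀ a b : ℕ, a ≠ b → ∀ η : ℝ, 0 < η → ∀ᶠ j in atTop,
      |∑ n ∈ range (N j), l (n + a) * l (n + b)| ≤ η * N j)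
    (c : Multiset ℕ → ℝ) (hc : ∀ m, Tendsto (fun j => C w l (N j) m) atTop (𝓝 (c m)))
    (S : Finset ℕ) (m : Multiset ℕ) : ∑ b ∈ S, c (b ::ₘ m) ^ 2 ≤ 1 / s := by
  have key : ∀ η : ℝ, 0 < η → ∑ b ∈ S, c (b ::ₘ m) ^ 2 ≤ (1 + S.card * η) / s := by
    intro η hη
    have hlim : Tendsto (fun j => ∑ b ∈ S, C w l (N j) (b ::ₘ m) ^ 2) atTop
        (𝓝 (∑ b ∈ S, c (b ::ₘ m) ^ 2)) :=
      tendsto_finsetSum _ fun b _ => (hc _).pow 2
    refine le_of_tendsto hlim ?_
    have h3 : ∀ᶠ j in atTop, ∀ a ∈ S, ∀ b ∈ S, a ≠ b →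
        |∑ n ∈ range (N j), l (n + a) * l (n + b)| ≤ η * N j := by
      rw [Filter.eventually_all_finset]
      intro a _
      rw [Filter.eventually_all_finset]
      intro b _
      by_cases hab : a = b
      · exact Eventually.of_forall fun j h => absurd hab h
      · filter_upwards [h2 a b hab η hη] with j hj _
        exact hj
    filter_upwards [h3] with j hj
    have hNj : (1 : ℝ) ≤ N j := by exact_mod_cast hN j
    have hW0 : 0 < W w (N j) := lt_of_lt_of_le (by positivity) (hW j)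
    have h4 := bessel S (fun n => w n * Y l m n) (fun b n => l (n + b)) (N j) η hη.le
      (fun a _ => by
        rw [sum_congr rfl fun n _ => hl (n + a)]
        simp) hj
    have h5 : ∑ n ∈ range (N j), (w n * Y l m n) ^ 2 = W w (N j) := by
      unfold W
      refine sum_congr rfl fun n _ => ?_
      rw [mul_pow, Y_sq hl, mul_one, hw]
    rw [h5] at h4
    have h6 : ∑ b ∈ S, C w l (N j) (b ::ₘ m) ^ 2 =
        (∑ b ∈ S, (∑ n ∈ range (N j), w n * Y l m n * l (n + b)) ^ 2) / W w (N j) ^ 2 := by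
      rw [sum_div]
      refine sum_congr rfl fun b _ => ?_
      unfold C
      rw [div_pow]
      congr 2
      refine sum_congr rfl fun n _ => ?_
      rw [Y_cons]
      ring
    rw [h6, div_le_div_iff₀ (by positivity) hs]
    have h7 : 0 ≤ 1 + S.card * η := by positivity
    calc (∑ b ∈ S, (∑ n ∈ range (N j), w n * Y l m n * l (n + b)) ^ 2) * s
        ≤ N j * (1 + S.card * η) * W w (N j) * s := mul_le_mul_of_nonneg_right h4 hs.le
      _ = (s * N j) * ((1 + S.card * η) * W w (N j)) := by ring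
      _ ≤ W w (N j) * ((1 + S.card * η) * W w (N j)) :=
          mul_le_mul_of_nonneg_right (hW j) (by positivity)
      _ = (1 + S.card * η) * W w (N j) ^ 2 := by ring
  refine le_of_forall_pos_le_add fun e he => ?_
  have h := key (e * s / (S.card + 1)) (by positivity)
  refine h.trans ?_
  rw [add_div]
  have h1 : S.card * (e * s / (S.card + 1)) / s ≤ e := by
    rw [div_le_iff₀ hs]
    rw [mul_div_assoc', div_le_iff₀ (by positivity)]
    nlinarith [mul_pos he hs]
  linarith

/-- the sum of the squares of the correlations over the subsets of the first `k` places -/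
noncomputable def Q (c : Multiset ℕ → ℝ) (k : ℕ) (a : ℕ → ℕ) : ℝ :=
  ∑ J ∈ (range k).powerset, c (J.val.map a) ^ 2

/-- the extension by `0` -/
def ext {k : ℕ} (a : Fin k → ℕ) (i : ℕ) : ℕ := if h : i < k then a ⟨i, h⟩ else 0

lemma Q_succ (c : Multiset ℕ → ℝ) (k : ℕ) (a : ℕ → ℕ) :
    Q c (k + 1) a = Q c k a + ∑ J ∈ (range k).powerset, c (a k ::ₘ J.val.map a) ^ 2 := by
  unfold Q
  rw [range_add_one, sum_powerset_insert notMem_range_self]
  congr 1
  refine sum_congr rfl fun J hJ => ?_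
  rw [mem_powerset] at hJ
  have hk : k ∉ J := fun h => notMem_range_self (hJ h)
  rw [insert_val_of_notMem hk, Multiset.map_cons]

lemma sum_pi_succ {k : ℕ} (S : Fin (k + 1) → Finset ℕ) (F : (Fin (k + 1) → ℕ) → ℝ) :
    ∑ a ∈ Fintype.piFinset S, F a = ∑ a ∈ Fintype.piFinset (fun i : Fin k => S i.castSucc),
      ∑ b ∈ S (Fin.last k), F (Fin.snoc (α := fun _ => ℕ) a b) := by
  rw [← Finset.sum_product']
  refine Finset.sum_bij' (fun a _ => (Fin.init (α := fun _ => ℕ) a, a (Fin.last k)))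
    (fun p _ => Fin.snoc (α := fun _ => ℕ) p.1 p.2) ?_ ?_ ?_ ?_ ?_
  · intro a ha
    rw [Fintype.mem_piFinset] at ha
    rw [mem_product, Fintype.mem_piFinset]
    exact ⟨fun i => ha _, ha _⟩
  · intro p hp
    rw [mem_product, Fintype.mem_piFinset] at hp
    rw [Fintype.mem_piFinset]
    intro i
    refine Fin.lastCases ?_ (fun i => ?_) i
    · rw [Fin.snoc_last]
      exact hp.2
    · rw [Fin.snoc_castSucc]
      exact hp.1 i
  · intro a _
    exact Fin.snoc_init_self a
  · intro p _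
    simp [Fin.init_snoc]
  · intro a _
    rw [Fin.snoc_init_self]

lemma ext_snoc_lt {k : ℕ} (a : Fin k → ℕ) (b : ℕ) {i : ℕ} (hi : i < k) :
    ext (Fin.snoc (α := fun _ => ℕ) a b) i = ext a i := by
  unfold ext
  rw [dif_pos (by omega), dif_pos hi]
  exact Fin.snoc_castSucc (α := fun _ => ℕ) b a ⟨i, hi⟩

lemma ext_snoc_last {k : ℕ} (a : Fin k → ℕ) (b : ℕ) :
    ext (Fin.snoc (α := fun _ => ℕ) a b) k = b := by
  unfold ext
  rw [dif_pos (by omega)]
  exact Fin.snoc_last (α := fun _ => ℕ) b a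

theorem sum_Q (c : Multiset ℕ → ℝ) (c0 : c 0 = 1) {s : ℝ} (hs : 0 < s)
    (hc : ∀ (S : Finset ℕ) (m : Multiset ℕ), ∑ b ∈ S, c (b ::ₘ m) ^ 2 ≤ 1 / s) :
    ∀ (k : ℕ) (S : Fin k → Finset ℕ), (∀ i, (S i).Nonempty) →
      ∑ a ∈ Fintype.piFinset S, Q c k (ext a) ≤
        (1 + ∑ i : Fin k, 2 ^ (i : ℕ) / (s * ((S i).card : ℝ))) * ∏ i : Fin k, ((S i).card : ℝ) := by
  intro k
  induction k with
  | zero =>
    intro S _
    have h1 : ∀ a ∈ Fintype.piFinset S, Q c 0 (ext a) = 1 := by
      intro a _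
      unfold Q
      simp [c0]
    rw [sum_congr rfl h1]
    simp
  | succ k ih =>
    intro S hS
    have h1 := ih (fun i => S i.castSucc) (fun i => hS _)
    rw [sum_pi_succ, Fin.sum_univ_castSucc, Fin.prod_univ_castSucc]
    have hn : 0 < ((S (Fin.last k)).card : ℝ) := by
      exact_mod_cast card_pos.2 (hS _)
    have h2 : ∀ a ∈ Fintype.piFinset (fun i : Fin k => S i.castSucc),
        ∑ b ∈ S (Fin.last k), Q c (k + 1) (ext (Fin.snoc (α := fun _ => ℕ) a b)) ≤
          (S (Fin.last k)).card * Q c k (ext a) + 2 ^ k / s := by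
      intro a _
      have h3 : ∀ b ∈ S (Fin.last k), Q c (k + 1) (ext (Fin.snoc (α := fun _ => ℕ) a b)) =
          Q c k (ext a) + ∑ J ∈ (range k).powerset, c (b ::ₘ J.val.map (ext a)) ^ 2 := by
        intro b _
        rw [Q_succ, ext_snoc_last]
        have h4 : ∀ J ∈ (range k).powerset,
            J.val.map (ext (Fin.snoc (α := fun _ => ℕ) a b)) = J.val.map (ext a) := by
          intro J hJ
          rw [mem_powerset] at hJ
          exact Multiset.map_congr rfl fun i hi => ext_snoc_lt a b (mem_range.1 (hJ hi))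
        congr 1
        · unfold Q
          exact sum_congr rfl fun J hJ => by rw [h4 J hJ]
        · exact sum_congr rfl fun J hJ => by rw [h4 J hJ]
      rw [sum_congr rfl h3, sum_add_distrib, sum_const, nsmul_eq_mul, sum_comm]
      refine add_le_add le_rfl ?_
      refine (sum_le_sum fun J _ => hc _ _).trans (le_of_eq ?_)
      rw [sum_const, card_powerset, card_range, nsmul_eq_mul]
      push_cast
      ring
    refine (sum_le_sum h2).trans ?_
    rw [sum_add_distrib, ← mul_sum, sum_const, nsmul_eq_mul, Fintype.card_piFinset]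
    push_cast
    have h5 := mul_le_mul_of_nonneg_left h1 hn.le
    refine (add_le_add h5 le_rfl).trans (le_of_eq ?_)
    simp only [Fin.val_castSucc]
    field_simp
    ring

end Pool.Agent.Helper38K9.TP
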