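import Pool.Agent.Helper38K9.TP.Pat

/-!
# Typical places for the Liouville function (helper38)
-/

set_option autoImplicit false

open scoped Classical

namespace Pool.Agent.Helper38K9.TP

open Finset Filter Topology
open Pool.Agent.Helper84K9.IS (W count Dense pair scales null_of_eventually)

/-- the Liouville function with values in the group `{1, -1}` -/
def lam (n : ℕ) : ℤˣ := (-1) ^ ArithmeticFunction.cardFactors n

lemma re_lam (n : ℕ) : re lam n = Pool.Agent.R509.TT.l n := by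
  unfold re lam Pool.Agent.R509.TT.l
  rw [Units.val_pow_eq_pow_val, Units.val_neg, Units.val_one]
  push_cast
  rfl

theorem setup (A : Set ℕ) (s : ℝ) (hs : 0 < s) (hA : Dense A s) :
    ∃ N : ℕ → ℕ, StrictMono N ∧ (∀ j, 1 ≤ N j) ∧ (∀ j, s * N j ≤ count A (N j)) ∧
      ∃ c : Multiset ℕ → ℝ, c 0 = 1 ∧
        (∀ m, Tendsto (fun j => C (fun n => if n ∈ A then 1 else 0) (re lam) (N j) m) atTop
          (𝓝 (c m))) ∧
        ∀ (S : Finset ℕ) (m : Multiset ℕ), ∑ b ∈ S, c (b ::ₘ m) ^ 2 ≤ 1 / s := by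
  obtain ⟨E, hE, hpair⟩ := pair
  obtain ⟨t, hst, hfr⟩ := hA
  obtain ⟨G, hG⟩ : ∃ G : Set ℕ, G = {N : ℕ | s * N ≤ count A N} := ⟨_, rfl⟩
  have hGE : ∃ᶠ N in atTop, N ∈ G \ E := by
    intro hcon
    have h1 : ∀ᶠ N in atTop, N ∈ G → N ∈ E := by
      filter_upwards [hcon] with N hN hNG
      by_contra h
      exact hN ⟨hNG, h⟩
    have h2 := null_of_eventually G E h1 hE
    rw [hG] at h2
    exact scales A hs.le hst hfr h2
  have hGE1 : ∃ᶠ N in atTop, N ∈ G \ E ∧ 1 ≤ N :=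
    hGE.and_eventually (eventually_ge_atTop 1)
  obtain ⟨M, hM, hMG⟩ := extraction_of_frequently_atTop hGE1
  have hw : ∀ n, (fun n => if n ∈ A then (1 : ℝ) else 0) n ^ 2 =
      (fun n => if n ∈ A then (1 : ℝ) else 0) n := by
    intro n
    simp only
    split_ifs <;> norm_num
  obtain ⟨φ, hφ, c, hc⟩ := exists_lim (w := fun n => if n ∈ A then (1 : ℝ) else 0) (re_sq lam) hw M
  have hW : ∀ j, s * M (φ j) ≤ count A (M (φ j)) := by
    intro j
    have := (hMG (φ j)).1.1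
    rw [hG] at this
    exact this
  refine ⟨fun j => M (φ j), hM.comp hφ, fun j => (hMG (φ j)).2, hW, c, ?_, hc, ?_⟩
  · refine tendsto_nhds_unique (hc 0) ?_
    refine tendsto_const_nhds.congr fun j => ?_
    unfold C
    have h1 : (0 : ℝ) < W (fun n => if n ∈ A then (1 : ℝ) else 0) (M (φ j)) := by
      rw [W_eq]
      refine lt_of_lt_of_le ?_ (hW j)
      have : (1 : ℝ) ≤ M (φ j) := by exact_mod_cast (hMG (φ j)).2
      positivity
    have h2 : ∑ n ∈ range (M (φ j)), (fun n => if n ∈ A then (1 : ℝ) else 0) n * Y (re lam) 0 n =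
        W (fun n => if n ∈ A then (1 : ℝ) else 0) (M (φ j)) := by
      unfold W Y
      simp
    rw [h2]
    exact (div_self h1.ne').symm
  · refine bessel_lim (re_sq lam) hw hs (fun j => M (φ j)) (fun j => (hMG (φ j)).2)
      (fun j => by rw [W_eq]; exact hW j) ?_ c hc
    intro a b hab η hη
    obtain ⟨N₀, hN₀⟩ := hpair a b hab η hη
    have h1 : Tendsto (fun j => M (φ j)) atTop atTop := (hM.comp hφ).tendsto_atTop
    filter_upwards [h1.eventually_ge_atTop N₀] with j hj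
    have h2 := hN₀ (M (φ j)) hj (hMG (φ j)).1.2
    simp only [re_lam]
    exact h2

/-- Markov's inequality -/
theorem markov (c : Multiset ℕ → ℝ) (c0 : c 0 = 1) {s : ℝ} (hs : 0 < s)
    (hc : ∀ (S : Finset ℕ) (m : Multiset ℕ), ∑ b ∈ S, c (b ::ₘ m) ^ 2 ≤ 1 / s)
    {k : ℕ} (S : Fin k → Finset ℕ) (hS : ∀ i, (S i).Nonempty) {η t : ℝ} (ht : 0 < t)
    (h : ∑ i : Fin k, 2 ^ (i : ℕ) / (s * ((S i).card : ℝ)) ≤ η * t) :
    (((Fintype.piFinset S).filter fun a => t ≤ Q c k (ext a) - 1).card : ℝ) ≤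
      η * ∏ i : Fin k, ((S i).card : ℝ) := by
  have h1 := sum_Q c c0 hs hc k S hS
  have h2 : ∀ a ∈ Fintype.piFinset S, 0 ≤ Q c k (ext a) - 1 := by
    intro a _
    have h3 : c ((∅ : Finset ℕ).val.map (ext a)) ^ 2 ≤ Q c k (ext a) := by
      unfold Q
      exact single_le_sum (f := fun J : Finset ℕ => c (J.val.map (ext a)) ^ 2)
        (fun J _ => sq_nonneg _) (empty_mem_powerset _)
    rw [empty_val, Multiset.map_zero, c0] at h3
    linarith
  have h3 : ∑ a ∈ Fintype.piFinset S, (Q c k (ext a) - 1) ≤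
      η * t * ∏ i : Fin k, ((S i).card : ℝ) := by
    rw [sum_sub_distrib, sum_const, nsmul_eq_mul, mul_one, Fintype.card_piFinset]
    push_cast
    have h4 : (0 : ℝ) ≤ ∏ i : Fin k, ((S i).card : ℝ) := prod_nonneg fun i _ => Nat.cast_nonneg _
    nlinarith [mul_le_mul_of_nonneg_right h h4]
  have h4 : t * (((Fintype.piFinset S).filter fun a => t ≤ Q c k (ext a) - 1).card : ℝ) ≤
      ∑ a ∈ Fintype.piFinset S, (Q c k (ext a) - 1) := by
    have h5 : ∑ a ∈ (Fintype.piFinset S).filter (fun a => t ≤ Q c k (ext a) - 1),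
        (Q c k (ext a) - 1) ≤ ∑ a ∈ Fintype.piFinset S, (Q c k (ext a) - 1) :=
      sum_le_sum_of_subset_of_nonneg (filter_subset _ _) fun a ha _ => h2 a ha
    refine le_trans ?_ h5
    rw [mul_comm, ← nsmul_eq_mul, ← sum_const]
    exact sum_le_sum fun a ha => (mem_filter.1 ha).2
  have h5 : t * (((Fintype.piFinset S).filter fun a => t ≤ Q c k (ext a) - 1).card : ℝ) ≤
      t * (η * ∏ i : Fin k, ((S i).card : ℝ)) := by linarith
  exact le_of_mul_le_mul_left h5 ht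

lemma Q_tendsto {N : ℕ → ℕ} {w l : ℕ → ℝ} {c : Multiset ℕ → ℝ}
    (hc : ∀ m, Tendsto (fun j => C w l (N j) m) atTop (𝓝 (c m))) (k : ℕ) (a : ℕ → ℕ) :
    Tendsto (fun j => Q (C w l (N j)) k a) atTop (𝓝 (Q c k a)) := by
  unfold Q
  exact tendsto_finsetSum _ fun J _ => (hc _).pow 2

theorem good_tv {A : Set ℕ} {N : ℕ → ℕ} (hN : ∀ j, count A (N j) ≠ 0) {c : Multiset ℕ → ℝ}
    (hc : ∀ m, Tendsto (fun j => C (fun n => if n ∈ A then 1 else 0) (re lam) (N j) m) atTop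
          (𝓝 (c m))) {k : ℕ} (a : Fin k → ℕ) {θ : ℝ} (hθ : 0 < θ)
    (h : Q c k (ext a) - 1 < θ ^ 2) :
    ∀ᶠ j in atTop, ∑ ε, |fr lam A a ε (N j) - 1 / 2 ^ k| < θ := by
  have h1 := (Q_tendsto hc k (ext a)).sub_const 1
  filter_upwards [h1.eventually_lt_const h] with j hj
  have h2 := bias_sq lam A a (N j) (hN j)
  have h3 : (∑ ε, |fr lam A a ε (N j) - 1 / 2 ^ k|) ^ 2 < θ ^ 2 := lt_of_le_of_lt h2 hj
  exact lt_of_pow_lt_pow_left₀ 2 hθ.le h3

theorem good_all {A : Set ℕ} {N : ℕ → ℕ} (hN : ∀ j, count A (N j) ≠ 0) {c : Multiset ℕ → ℝ}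
    (hc : ∀ m, Tendsto (fun j => C (fun n => if n ∈ A then 1 else 0) (re lam) (N j) m) atTop
          (𝓝 (c m))) {k : ℕ} (a : Fin k → ℕ) {θ : ℝ} (hθ : 0 < θ)
    (h : Q c k (ext a) - 1 < θ ^ 2 / 2 ^ k) :
    ∀ᶠ j in atTop, ∀ ε, |fr lam A a ε (N j) - 1 / 2 ^ k| < θ / 2 ^ k := by
  have h1 := (Q_tendsto hc k (ext a)).sub_const 1
  filter_upwards [h1.eventually_lt_const h] with j hj ε
  have h2 := sum_dev_sq lam A a (N j) (hN j)
  have h3 : (fr lam A a ε (N j) - 1 / 2 ^ k) ^ 2 ≤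
      (Q (C (fun n => if n ∈ A then 1 else 0) (re lam) (N j)) k (ext a) - 1) / 2 ^ k := by
    rw [← h2]
    exact single_le_sum (f := fun ε => (fr lam A a ε (N j) - 1 / 2 ^ k) ^ 2)
      (fun ε _ => sq_nonneg _) (mem_univ ε)
  have h4 : |fr lam A a ε (N j) - 1 / 2 ^ k| ^ 2 < (θ / 2 ^ k) ^ 2 := by
    rw [sq_abs]
    refine lt_of_le_of_lt h3 ?_
    rw [div_pow, div_lt_div_iff₀ (by positivity) (by positivity)]
    have h5 : Q (C (fun n => if n ∈ A then 1 else 0) (re lam) (N j)) k (ext a) - 1 <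
        θ ^ 2 / 2 ^ k := hj
    rw [lt_div_iff₀ (by positivity)] at h5
    have h6 : (0 : ℝ) < 2 ^ k := by positivity
    nlinarith
  exact lt_of_pow_lt_pow_left₀ 2 (by positivity) h4

end Pool.Agent.Helper38K9.TP
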