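import Pool.Agent.Helper38K9.TP.Fin

/-!
# Typical places for the Liouville function: random infinite sequences of places (helper38)
-/

set_option autoImplicit false

open scoped Classical

namespace Pool.Agent.Helper38K9.TP

open Finset Filter Topology MeasureTheory ProbabilityTheory
open scoped ENNReal

section

variable {Ω : Type} [MeasurableSpace Ω] {P : Measure Ω} [IsProbabilityMeasure P]

lemma off_null {S : Finset ℕ} (hS : S.Nonempty) {X : Ω → ℕ} (hX : Measurable X)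
    (hU : ∀ v ∈ S, P (X ⁻¹' {v}) = 1 / (S.card : ℝ≥0∞)) : P (X ⁻¹' {v | v ∉ S}) = 0 := by
  have h1 : P (X ⁻¹' (S : Set ℕ)) = 1 := by
    have h2 : X ⁻¹' (S : Set ℕ) = ⋃ v ∈ S, X ⁻¹' {v} := by
      ext ω
      simp
    rw [h2, measure_biUnion_finset ?_ (fun v _ => hX (measurableSet_singleton v))]
    · rw [sum_congr rfl fun v hv => hU v hv, sum_const, nsmul_eq_mul, one_div]
      refine ENNReal.mul_inv_cancel ?_ (ENNReal.natCast_ne_top _)
      exact_mod_cast (card_pos.2 hS).ne'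
    · intro v _ v' _ hvv
      refine Disjoint.preimage _ ?_
      exact Set.disjoint_singleton.2 hvv
  have h3 : X ⁻¹' {v | v ∉ S} = (X ⁻¹' (S : Set ℕ))ᶜ := by
    ext ω
    simp
  rw [h3, prob_compl_eq_zero_iff (hX S.measurableSet), h1]

lemma cyl {S : ℕ → Finset ℕ} (hS : ∀ i, (S i).Nonempty) {X : ℕ → Ω → ℕ}
    (hX : ∀ i, Measurable (X i)) (hI : iIndepFun X P)
    (hU : ∀ i, ∀ v ∈ S i, P (X i ⁻¹' {v}) = 1 / ((S i).card : ℝ≥0∞)) (r k : ℕ)
    (B : Finset (Fin k → ℕ)) (hB : ∀ v ∈ B, ∀ i : Fin k, v i ∈ S (r + i)) :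
    P {ω | (fun i : Fin k => X (r + i) ω) ∈ B ∨ ∃ i : Fin k, X (r + i) ω ∉ S (r + i)} ≤
      B.card * (∏ i : Fin k, ((S (r + i)).card : ℝ≥0∞))⁻¹ := by
  have h1 : {ω | (fun i : Fin k => X (r + i) ω) ∈ B ∨ ∃ i : Fin k, X (r + i) ω ∉ S (r + i)} ⊆
      (⋃ v ∈ B, ⋂ i ∈ (univ : Finset (Fin k)), X (r + i) ⁻¹' {v i}) ∪
        ⋃ i : Fin k, X (r + i) ⁻¹' {v | v ∉ S (r + i)} := by
    intro ω hω
    rcases hω with h | ⟨i, hi⟩
    · left
      simp only [Set.mem_iUnion]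
      refine ⟨_, h, ?_⟩
      simp
    · right
      simp only [Set.mem_iUnion]
      exact ⟨i, hi⟩
  refine (measure_mono h1).trans ((measure_union_le _ _).trans ?_)
  have h2 : P (⋃ i : Fin k, X (r + i) ⁻¹' {v | v ∉ S (r + i)}) = 0 :=
    measure_iUnion_null fun i => off_null (hS _) (hX _) (hU _)
  rw [h2, add_zero]
  refine (measure_biUnion_finset_le _ _).trans ?_
  have h3 : ∀ v ∈ B, P (⋂ i ∈ (univ : Finset (Fin k)), X (r + i) ⁻¹' {v i}) =
      (∏ i : Fin k, ((S (r + i)).card : ℝ≥0∞))⁻¹ := by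
    intro v hv
    have hI2 : iIndepFun (fun i : Fin k => X (r + i)) P := by
      refine hI.precomp (g := fun i : Fin k => r + (i : ℕ)) ?_
      intro i j hij
      have : r + (i : ℕ) = r + (j : ℕ) := hij
      exact Fin.ext (by omega)
    rw [hI2.measure_inter_preimage_eq_mul univ (sets := fun i => {v i})
      (fun i _ => measurableSet_singleton _)]
    rw [ENNReal.prod_inv_distrib]
    · refine prod_congr rfl fun i _ => ?_
      rw [hU _ _ (hB v hv i), one_div]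
    · intro i _ j _ _
      left
      exact_mod_cast (card_pos.2 (hS _)).ne'
  rw [sum_congr rfl h3, sum_const, nsmul_eq_mul]

/-- the probability that the first `k` places after `r` are bad -/
lemma prob_bad (c : Multiset ℕ → ℝ) (c0 : c 0 = 1) {s : ℝ} (hs : 0 < s)
    (hc : ∀ (S : Finset ℕ) (m : Multiset ℕ), ∑ b ∈ S, c (b ::ₘ m) ^ 2 ≤ 1 / s)
    {S : ℕ → Finset ℕ} (hS : ∀ i, (S i).Nonempty) {X : ℕ → Ω → ℕ}
    (hX : ∀ i, Measurable (X i)) (hI : iIndepFun X P)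
    (hU : ∀ i, ∀ v ∈ S i, P (X i ⁻¹' {v}) = 1 / ((S i).card : ℝ≥0∞)) (r k : ℕ) {t : ℝ}
    (ht : 0 < t) :
    P {ω | t ≤ Q c k (ext fun i : Fin k => X (r + i) ω) - 1} ≤
      ENNReal.ofReal ((∑ i : Fin k, 2 ^ (i : ℕ) / (s * ((S (r + i)).card : ℝ))) / t) := by
  obtain ⟨η, hη⟩ : ∃ η : ℝ, η = (∑ i : Fin k, 2 ^ (i : ℕ) / (s * ((S (r + i)).card : ℝ))) / t :=
    ⟨_, rfl⟩
  have h1 := markov c c0 hs hc (fun i : Fin k => S (r + i)) (fun i => hS _) (η := η) ht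
    (by rw [hη, div_mul_cancel₀ _ ht.ne'])
  rw [← hη]
  obtain ⟨B, hB⟩ : ∃ B : Finset (Fin k → ℕ),
      B = (Fintype.piFinset fun i : Fin k => S (r + i)).filter fun a => t ≤ Q c k (ext a) - 1 :=
    ⟨_, rfl⟩
  rw [← hB] at h1
  have h2 : {ω | t ≤ Q c k (ext fun i : Fin k => X (r + i) ω) - 1} ⊆
      {ω | (fun i : Fin k => X (r + i) ω) ∈ B ∨ ∃ i : Fin k, X (r + i) ω ∉ S (r + i)} := by
    intro ω hω
    by_cases h : ∃ i : Fin k, X (r + i) ω ∉ S (r + i)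
    · exact Or.inr h
    · left
      push Not at h
      rw [hB, mem_filter, Fintype.mem_piFinset]
      exact ⟨h, hω⟩
  refine (measure_mono h2).trans ((cyl hS hX hI hU r k B ?_).trans ?_)
  · intro v hv i
    rw [hB, mem_filter, Fintype.mem_piFinset] at hv
    exact hv.1 i
  · have h3 : (0 : ℝ) < ∏ i : Fin k, ((S (r + i)).card : ℝ) :=
      prod_pos fun i _ => by exact_mod_cast card_pos.2 (hS _)
    have h4 : (B.card : ℝ) * (∏ i : Fin k, ((S (r + i)).card : ℝ))⁻¹ ≤ η := by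
      rw [← div_eq_mul_inv, div_le_iff₀ h3]
      exact h1
    refine le_trans (le_of_eq ?_) (ENNReal.ofReal_le_ofReal h4)
    rw [ENNReal.ofReal_mul (Nat.cast_nonneg _), ENNReal.ofReal_natCast, ENNReal.ofReal_inv_of_pos h3,
      ENNReal.ofReal_prod_of_nonneg fun i _ => Nat.cast_nonneg _]
    simp only [ENNReal.ofReal_natCast]

lemma Q_mono (c : Multiset ℕ → ℝ) (a : ℕ → ℕ) {k k' : ℕ} (h : k ≤ k') : Q c k a ≤ Q c k' a := by
  unfold Q
  exact sum_le_sum_of_subset_of_nonneg (powerset_mono.2 (range_mono h)) fun J _ _ => sq_nonneg _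

lemma Q_congr (c : Multiset ℕ → ℝ) {a b : ℕ → ℕ} {k : ℕ} (h : ∀ i < k, a i = b i) :
    Q c k a = Q c k b := by
  unfold Q
  refine sum_congr rfl fun J hJ => ?_
  rw [mem_powerset] at hJ
  rw [Multiset.map_congr rfl fun i hi => h i (mem_range.1 (hJ hi))]

lemma Q_ext (c : Multiset ℕ → ℝ) (k : ℕ) (a : ℕ → ℕ) :
    Q c k (ext fun i : Fin k => a i) = Q c k a := by
  refine Q_congr c fun i hi => ?_
  unfold ext
  rw [dif_pos hi]

theorem tail (c : Multiset ℕ → ℝ) (c0 : c 0 = 1) {s : ℝ} (hs : 0 < s)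
    (hc : ∀ (S : Finset ℕ) (m : Multiset ℕ), ∑ b ∈ S, c (b ::ₘ m) ^ 2 ≤ 1 / s)
    {S : ℕ → Finset ℕ} (hS : ∀ i, (S i).Nonempty) {X : ℕ → Ω → ℕ}
    (hX : ∀ i, Measurable (X i)) (hI : iIndepFun X P)
    (hU : ∀ i, ∀ v ∈ S i, P (X i ⁻¹' {v}) = 1 / ((S i).card : ℝ≥0∞))
    (hsum : Summable fun i : ℕ => (2 : ℝ) ^ i / ((S i).card : ℝ)) {t : ℝ} (ht : 0 < t) :
    ∀ᵐ ω ∂P, ∃ r : ℕ, ∀ k : ℕ, Q c k (fun i => X (r + i) ω) - 1 < t := by
  obtain ⟨T, hT⟩ : ∃ T : ℝ, T = (∑' i : ℕ, (2 : ℝ) ^ i / ((S i).card : ℝ)) / s / t := ⟨_, rfl⟩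
  have h0 : ∀ i : ℕ, 0 ≤ (2 : ℝ) ^ i / ((S i).card : ℝ) := fun i => by positivity
  have h1 : ∀ r k : ℕ, P {ω | t ≤ Q c k (fun i => X (r + i) ω) - 1} ≤
      ENNReal.ofReal (T * (1 / 2) ^ r) := by
    intro r k
    have h2 := prob_bad (P := P) c c0 hs hc hS hX hI hU r k ht
    have h3 : ∀ ω, Q c k (ext fun i : Fin k => X (r + i) ω) = Q c k (fun i => X (r + i) ω) :=
      fun ω => Q_ext c k fun i => X (r + i) ω
    simp only [h3] at h2
    refine h2.trans (ENNReal.ofReal_le_ofReal ?_)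
    have h4 : ∑ i : Fin k, 2 ^ (i : ℕ) / (s * ((S (r + i)).card : ℝ)) =
        (1 / 2) ^ r * (∑ i ∈ range k, (2 : ℝ) ^ (r + i) / ((S (r + i)).card : ℝ)) / s := by
      rw [Finset.sum_range, mul_sum, sum_div]
      refine sum_congr rfl fun i _ => ?_
      rw [pow_add, div_pow, one_pow]
      have : (0 : ℝ) < 2 ^ r := by positivity
      field_simp
    have h5 : ∑ i ∈ range k, (2 : ℝ) ^ (r + i) / ((S (r + i)).card : ℝ) ≤
        ∑' i : ℕ, (2 : ℝ) ^ i / ((S i).card : ℝ) := by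
      have h6 : ∑ i ∈ range k, (2 : ℝ) ^ (r + i) / ((S (r + i)).card : ℝ) =
          ∑ i ∈ (range k).image (fun i => r + i), (2 : ℝ) ^ i / ((S i).card : ℝ) := by
        rw [sum_image fun i _ j _ hij => by
          have : r + i = r + j := hij
          omega]
      rw [h6]
      exact hsum.sum_le_tsum _ fun i _ => h0 i
    rw [h4, hT]
    have h7 : (0 : ℝ) < (1 / 2) ^ r := by positivity
    have h8 : (1 / 2 : ℝ) ^ r * (∑ i ∈ range k, (2 : ℝ) ^ (r + i) / ((S (r + i)).card : ℝ)) / s / t ≤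
        (1 / 2 : ℝ) ^ r * (∑' i : ℕ, (2 : ℝ) ^ i / ((S i).card : ℝ)) / s / t := by
      gcongr
    refine h8.trans (le_of_eq ?_)
    ring
  have h2 : ∀ r : ℕ, P {ω | ∃ k : ℕ, t ≤ Q c k (fun i => X (r + i) ω) - 1} ≤
      ENNReal.ofReal (T * (1 / 2) ^ r) := by
    intro r
    have h3 : {ω | ∃ k : ℕ, t ≤ Q c k (fun i => X (r + i) ω) - 1} =
        ⋃ k : ℕ, {ω | t ≤ Q c k (fun i => X (r + i) ω) - 1} := by
      ext ω
      simp
    rw [h3]
    have hm : Monotone fun k : ℕ => {ω | t ≤ Q c k (fun i => X (r + i) ω) - 1} := by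
      intro k k' hk ω hω
      have h4 := Q_mono c (fun i => X (r + i) ω) hk
      have h5 : t ≤ Q c k (fun i => X (r + i) ω) - 1 := hω
      show t ≤ Q c k' (fun i => X (r + i) ω) - 1
      linarith
    rw [hm.measure_iUnion]
    exact iSup_le fun k => h1 r k
  have h3 : P {ω | ¬ ∃ r : ℕ, ∀ k : ℕ, Q c k (fun i => X (r + i) ω) - 1 < t} = 0 := by
    have h4 : ∀ r : ℕ, P {ω | ¬ ∃ r : ℕ, ∀ k : ℕ, Q c k (fun i => X (r + i) ω) - 1 < t} ≤
        ENNReal.ofReal (T * (1 / 2) ^ r) := by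
      intro r
      refine le_trans (measure_mono ?_) (h2 r)
      intro ω hω
      have h5 : ¬ ∃ r : ℕ, ∀ k : ℕ, Q c k (fun i => X (r + i) ω) - 1 < t := hω
      push Not at h5
      exact h5 r
    have h5 : Tendsto (fun r : ℕ => ENNReal.ofReal (T * (1 / 2) ^ r)) atTop (𝓝 0) := by
      rw [← ENNReal.ofReal_zero]
      refine ENNReal.tendsto_ofReal ?_
      have := (tendsto_pow_atTop_nhds_zero_of_lt_one (r := (1 / 2 : ℝ)) (by norm_num)
        (by norm_num)).const_mul T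
      rwa [mul_zero] at this
    exact le_antisymm (ge_of_tendsto' h5 h4) bot_le
  exact h3

end

end Pool.Agent.Helper38K9.TP
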