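import Pool.Agent.Helper38K9.TP.Core

/-!
# Typical places: patterns and correlations (helper38)
-/

set_option autoImplicit false

open scoped Classical

namespace Pool.Agent.Helper38K9.TP

open Finset Filter Topology
open Pool.Agent.Helper84K9.IS (W count Dense pair scales null_of_eventually)

/-- the sign function as a real function -/
def re (u : ℕ → ℤˣ) (n : ℕ) : ℝ := (((u n : ℤˣ) : ℤ) : ℝ)

lemma re_sq (u : ℕ → ℤˣ) (n : ℕ) : re u n ^ 2 = 1 := by
  unfold re
  rcases Int.units_eq_one_or (u n) with h | h <;> rw [h] <;> norm_num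

/-- the pattern at the places `n + a i` -/
def pat (u : ℕ → ℤˣ) {k : ℕ} (a : Fin k → ℕ) (n : ℕ) : Fin k → ℤˣ := fun i => u (n + a i)

lemma sum_card_sq (u : ℕ → ℤˣ) {k : ℕ} (a : Fin k → ℕ) (R : Finset ℕ) :
    ∑ ε : Fin k → ℤˣ, (((R.filter fun n => pat u a n = ε).card : ℕ) : ℝ) ^ 2 =
      ∑ n ∈ R, ∑ m ∈ R, if pat u a n = pat u a m then (1 : ℝ) else 0 := by
  have h1 : ∀ ε : Fin k → ℤˣ, (((R.filter fun n => pat u a n = ε).card : ℕ) : ℝ) ^ 2 =
      ∑ n ∈ R, ∑ m ∈ R, (if pat u a n = ε then (1 : ℝ) else 0) *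
        (if pat u a m = ε then (1 : ℝ) else 0) := by
    intro ε
    rw [← sum_mul_sum, sum_boole, sq]
  rw [sum_congr rfl fun ε _ => h1 ε, sum_comm]
  refine sum_congr rfl fun n _ => ?_
  rw [sum_comm]
  refine sum_congr rfl fun m _ => ?_
  rw [Finset.sum_eq_single (pat u a n)]
  · rw [if_pos rfl, one_mul]
    by_cases h : pat u a n = pat u a m
    · rw [if_pos h, if_pos h.symm]
    · rw [if_neg h, if_neg fun h' => h h'.symm]
  · intro ε _ hε
    rw [if_neg fun h => hε h.symm, zero_mul]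
  · intro h
    exact absurd (mem_univ _) h

lemma ind_eq (u : ℕ → ℤˣ) {k : ℕ} (a : Fin k → ℕ) (n m : ℕ) :
    (if pat u a n = pat u a m then (1 : ℝ) else 0) =
      ∏ i : Fin k, (1 + re u (n + a i) * re u (m + a i)) / 2 := by
  by_cases h : pat u a n = pat u a m
  · rw [if_pos h]
    symm
    refine prod_eq_one fun i _ => ?_
    have h1 : u (n + a i) = u (m + a i) := congrFun h i
    have h2 : re u (n + a i) * re u (m + a i) = 1 := by
      have : re u (n + a i) = re u (m + a i) := by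
        unfold re
        rw [h1]
      rw [this, ← sq, re_sq]
    rw [h2]
    norm_num
  · rw [if_neg h]
    have h1 : ∃ i, u (n + a i) ≠ u (m + a i) := by
      by_contra h2
      push Not at h2
      exact h (funext h2)
    obtain ⟨i, hi⟩ := h1
    symm
    refine prod_eq_zero (mem_univ i) ?_
    have h2 : re u (n + a i) * re u (m + a i) = -1 := by
      unfold re
      rcases Int.units_eq_one_or (u (n + a i)) with h3 | h3 <;>
        rcases Int.units_eq_one_or (u (m + a i)) with h4 | h4 <;> rw [h3, h4] at hi ⊢ <;>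
        first | (exact absurd rfl hi) | norm_num
    rw [h2]
    norm_num

lemma Y_eq_prod (u : ℕ → ℤˣ) (f : ℕ → ℕ) (J : Finset ℕ) (n : ℕ) :
    Y (re u) (J.val.map f) n = ∏ i ∈ J, re u (n + f i) := by
  unfold Y
  rw [Multiset.map_map]
  rfl

lemma expand (u : ℕ → ℤˣ) {k : ℕ} (a : Fin k → ℕ) (n m : ℕ) :
    ∏ i : Fin k, (1 + re u (n + a i) * re u (m + a i)) / 2 =
      (1 / 2 ^ k) * ∑ J ∈ (range k).powerset,
        Y (re u) (J.val.map (ext a)) n * Y (re u) (J.val.map (ext a)) m := by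
  have h1 : ∏ i : Fin k, (1 + re u (n + a i) * re u (m + a i)) / 2 =
      ∏ i ∈ range k, (1 + re u (n + ext a i) * re u (m + ext a i)) / 2 := by
    rw [Finset.prod_range]
    refine prod_congr rfl fun i _ => ?_
    have : ext a (i : ℕ) = a i := by
      unfold ext
      rw [dif_pos i.2]
    rw [this]
  rw [h1, prod_div_distrib, Finset.prod_one_add, prod_const, card_range, one_div, div_eq_inv_mul]
  congr 1
  refine sum_congr rfl fun J _ => ?_
  rw [Y_eq_prod, Y_eq_prod, prod_mul_distrib]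

/-- the sum of the squares of the numbers of the patterns -/
theorem parseval (u : ℕ → ℤˣ) {k : ℕ} (a : Fin k → ℕ) (R : Finset ℕ) :
    ∑ ε : Fin k → ℤˣ, (((R.filter fun n => pat u a n = ε).card : ℕ) : ℝ) ^ 2 =
      (1 / 2 ^ k) * ∑ J ∈ (range k).powerset, (∑ n ∈ R, Y (re u) (J.val.map (ext a)) n) ^ 2 := by
  rw [sum_card_sq]
  have h1 : ∀ n ∈ R, ∑ m ∈ R, (if pat u a n = pat u a m then (1 : ℝ) else 0) =
      ∑ m ∈ R, (1 / 2 ^ k) * ∑ J ∈ (range k).powerset,
        Y (re u) (J.val.map (ext a)) n * Y (re u) (J.val.map (ext a)) m :=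
    fun n _ => sum_congr rfl fun m _ => by rw [ind_eq, expand]
  rw [sum_congr rfl h1]
  simp only [← mul_sum]
  congr 1
  have h2 : ∀ n ∈ R, ∑ m ∈ R, ∑ J ∈ (range k).powerset,
        Y (re u) (J.val.map (ext a)) n * Y (re u) (J.val.map (ext a)) m =
      ∑ J ∈ (range k).powerset, ∑ m ∈ R,
        Y (re u) (J.val.map (ext a)) n * Y (re u) (J.val.map (ext a)) m :=
    fun n _ => sum_comm
  rw [sum_congr rfl h2, sum_comm]
  refine sum_congr rfl fun J _ => ?_
  rw [sq, sum_mul_sum]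

/-- the relative frequency of the pattern `ε` in the members of `A` below `N` -/
noncomputable def fr (u : ℕ → ℤˣ) (A : Set ℕ) {k : ℕ} (a : Fin k → ℕ) (ε : Fin k → ℤˣ) (N : ℕ) : ℝ :=
  (count {n | n ∈ A ∧ pat u a n = ε} N : ℝ) / count A N

lemma count_eq (A : Set ℕ) (u : ℕ → ℤˣ) {k : ℕ} (a : Fin k → ℕ) (ε : Fin k → ℤˣ) (N : ℕ) :
    count {n | n ∈ A ∧ pat u a n = ε} N =
      (((range N).filter fun n => n ∈ A).filter fun n => pat u a n = ε).card := by
  unfold count
  rw [filter_filter]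
  congr 1
  ext n
  simp only [mem_filter, Set.mem_setOf_eq]

lemma W_eq (A : Set ℕ) (N : ℕ) : W (fun n => if n ∈ A then 1 else 0) N = count A N := by
  unfold W count
  rw [sum_boole]

lemma sum_fr_sq (u : ℕ → ℤˣ) (A : Set ℕ) {k : ℕ} (a : Fin k → ℕ) (N : ℕ) :
    ∑ ε, fr u A a ε N ^ 2 =
      (1 / 2 ^ k) * Q (C (fun n => if n ∈ A then 1 else 0) (re u) N) k (ext a) := by
  unfold fr Q C
  rw [W_eq]
  simp only [div_pow]
  rw [← sum_div, ← sum_div]
  simp only [count_eq]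
  rw [parseval, mul_div_assoc]
  congr 2
  refine sum_congr rfl fun J _ => ?_
  congr 1
  rw [sum_filter]
  refine sum_congr rfl fun n _ => ?_
  by_cases h : n ∈ A
  · rw [if_pos h, if_pos h, one_mul]
  · rw [if_neg h, if_neg h, zero_mul]

lemma sum_fr (u : ℕ → ℤˣ) (A : Set ℕ) {k : ℕ} (a : Fin k → ℕ) (N : ℕ) (h : count A N ≠ 0) :
    ∑ ε, fr u A a ε N = 1 := by
  unfold fr
  rw [← sum_div]
  have h1 : ∑ ε : Fin k → ℤˣ, (count {n | n ∈ A ∧ pat u a n = ε} N : ℝ) = count A N := by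
    simp only [count_eq]
    rw [← Nat.cast_sum]
    congr 1
    unfold count
    exact (Finset.card_eq_sum_card_fiberwise (f := pat u a) (t := univ)
      (fun n _ => mem_coe.2 (mem_univ _))).symm
  rw [h1]
  exact div_self (by exact_mod_cast h)

lemma card_pats (k : ℕ) : ((univ : Finset (Fin k → ℤˣ)).card : ℝ) = 2 ^ k := by
  rw [card_univ, Fintype.card_fun, Fintype.card_fin, Fintype.card_units_int]
  norm_num

/-- the variance of the frequencies -/
theorem sum_dev_sq (u : ℕ → ℤˣ) (A : Set ℕ) {k : ℕ} (a : Fin k → ℕ) (N : ℕ) (h : count A N ≠ 0) :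
    ∑ ε, (fr u A a ε N - 1 / 2 ^ k) ^ 2 =
      (Q (C (fun n => if n ∈ A then 1 else 0) (re u) N) k (ext a) - 1) / 2 ^ k := by
  have h1 : ∑ ε, (fr u A a ε N - 1 / 2 ^ k) ^ 2 =
      ∑ ε, fr u A a ε N ^ 2 - 2 / 2 ^ k * ∑ ε, fr u A a ε N +
        ∑ _ε : Fin k → ℤˣ, (1 / 2 ^ k : ℝ) ^ 2 := by
    rw [mul_sum, ← sum_sub_distrib, ← sum_add_distrib]
    exact sum_congr rfl fun ε _ => by ring
  rw [h1, sum_fr_sq, sum_fr u A a N h, sum_const, nsmul_eq_mul, card_pats]
  field_simp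
  ring

/-- the total variation of the frequencies -/
theorem bias_sq (u : ℕ → ℤˣ) (A : Set ℕ) {k : ℕ} (a : Fin k → ℕ) (N : ℕ) (h : count A N ≠ 0) :
    (∑ ε, |fr u A a ε N - 1 / 2 ^ k|) ^ 2 ≤
      Q (C (fun n => if n ∈ A then 1 else 0) (re u) N) k (ext a) - 1 := by
  have h1 := sq_sum_le_card_mul_sum_sq (s := (univ : Finset (Fin k → ℤˣ)))
    (f := fun ε => |fr u A a ε N - 1 / 2 ^ k|)
  simp only [sq_abs] at h1
  rw [card_pats, sum_dev_sq u A a N h, mul_div_cancel₀ _ (by positivity)] at h1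
  exact h1

end Pool.Agent.Helper38K9.TP
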